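import Pool.Agent.H54.RH.Targets

/-!
# Every edge is in exactly two hexagons (row K2 of rhx_modules)
-/

set_option autoImplicit false

namespace Pool.Agent.H67.RHX

open Pool.Agent.H54.RH

theorem mem_MS {n m : ℕ} {h : W n} : h ∈ MS n m ↔ m.testBit (cd h) = true := by
  unfold MS
  rw [Finset.mem_filter]
  exact and_iff_right (Finset.mem_univ _)

theorem pf_K2 (h0 : T_K0) : T_K2 := by
  intro n m hck h hh k hk c hc
  obtain ⟨hlt, hdg, -, -, hsw⟩ := h0 n h
  have hm := mem_MS.1 hh
  have hcod : cd h ∈ codes n m := by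
    unfold codes
    rw [List.mem_filter]
    exact ⟨List.mem_range.2 hlt, hm⟩
  unfold ck2 at hck
  have h1 := List.all_eq_true.1 (List.all_eq_true.1 hck _ hcod) k.val (List.mem_range.2 k.2)
  have hk1 : dg (cd h) k.val = 1 := by
    rw [hdg k, hk]
    rfl
  rw [hk1] at h1
  have h2 : (([0, 2] : List ℕ).all fun e =>
      ((List.range n).filter fun l => dg (cd h) l == e && m.testBit (csw (cd h) k l)).length
        == 1) = true := by
    simpa using h1
  have hc2 : c.val ∈ ([0, 2] : List ℕ) := by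
    revert hc
    revert c
    decide
  have h3 := List.all_eq_true.1 h2 c.val hc2
  rw [beq_iff_eq, List.length_eq_one_iff] at h3
  obtain ⟨l0, hl0⟩ := h3
  have hmem : ∀ l : ℕ, l ∈ (List.range n).filter (fun l => dg (cd h) l == c.val &&
      m.testBit (csw (cd h) k l)) ↔ l < n ∧ dg (cd h) l = c.val ∧
        m.testBit (csw (cd h) k l) = true := by
    intro l
    rw [List.mem_filter, List.mem_range, Bool.and_eq_true, beq_iff_eq]
  rw [hl0] at hmem
  obtain ⟨h4, h5, h6⟩ := (hmem l0).1 (List.mem_singleton.2 rfl)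
  refine ⟨⟨l0, h4⟩, ⟨?_, ?_⟩, ?_⟩
  · apply Fin.ext
    rw [← h5]
    exact (hdg ⟨l0, h4⟩).symm
  · rw [mem_MS, hsw]
    exact h6
  · rintro l' ⟨h7, h8⟩
    apply Fin.ext
    have h9 := (hmem l'.val).2 ⟨l'.2, by rw [hdg l', h7], by
      rw [← hsw]
      exact mem_MS.1 h8⟩
    exact List.mem_singleton.1 h9

end Pool.Agent.H67.RHX
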